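import Mathlib
import Pool.Agent.H22.UnivRO

set_option autoImplicit false

/-- For every countable group `U` there is a countable right-orderable group that does not embed
into `U`; in particular there is no universal countable right-orderable group. -/
theorem Pool.Agent.Results.MP_49314d_al.NoUniversal.result (U : Type*) [Group U] [Countable U] :
    ∃ (G : Type) (_ : Group G), Countable G ∧
      (∃ r : LinearOrder G, ∀ x y z : G, r.le x y → r.le (x * z) (y * z)) ∧
      ∀ φ : G →* U, ¬ Function.Injective φ := by
  obtain ⟨χ, h⟩ := Pool.Agent.H22.UnivRO.main U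
  exact ⟨Pool.Agent.H22.UnivRO.Gp χ, inferInstance, inferInstance,
    ⟨Pool.Agent.H22.UnivRO.ord χ, Pool.Agent.H22.UnivRO.ord_right⟩, h⟩
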